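import Mathlib

/-! Partitions of finite posets into k-ary chains. -/

open Finset

namespace Pool.Agent.H.MP_6cdded_pr

def Chain {n : ℕ} (k : ℕ) (lt : Fin n → Fin n → Prop) (A : Finset (Fin n)) : Prop :=
  ∃ r ∈ A, ∃ π : Fin n → Fin n, π r = r ∧ (∀ y ∈ A, π y ∈ A ∧ ∃ m, π^[m] y = r) ∧
    (∀ x ∈ A, #{y ∈ A | y ≠ r ∧ π y = x} ≤ k) ∧ ∀ y ∈ A, ∀ m, π^[m] y ≠ y → lt (π^[m] y) y

noncomputable def wd {n : ℕ} (k : ℕ) (lt : Fin n → Fin n → Prop) : ℕ :=
  sInf {c | ∃ P : Finpartition (univ : Finset (Fin n)), (∀ A ∈ P.parts, Chain k lt A) ∧ #P.parts = c}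

variable {n k : ℕ} {lt lt' : Fin n → Fin n → Prop}

lemma wd_le (tr : ∀ x y z, lt x y → lt y z → lt x z) (π : Fin n → Fin n)
    (h1 : ∀ y, π y ≠ y → lt (π y) y ∧ π y < y) (h2 : ∀ x, #{y | π y ≠ y ∧ π y = x} ≤ k) :
    ∃ P : Finpartition (univ : Finset (Fin n)), (∀ A ∈ P.parts, Chain k lt A) ∧
      #P.parts ≤ #{y | π y = y} := by
  classical
  have fx : ∀ y : Fin n, ∀ m, y.1 ≤ m → π (π^[m] y) = π^[m] y := fun y m => by
    induction m generalizing y with
    | zero => exact fun l => by_contra fun c => by have := (h1 y c).2; omega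
    | succ m ih =>
      intro l
      by_cases c : π y = y
      · rw [Function.iterate_fixed c, c]
      · exact ih (π y) (by have := (h1 y c).2; omega)
  let ρ : Fin n → Fin n := π^[n]
  have f1 : ∀ y, π (ρ y) = ρ y := fun y => fx y n y.2.le
  have f2 : ∀ y, ρ (π y) = ρ y := fun y => (Function.iterate_succ_apply' π n y).trans (f1 y)
  have ds : ∀ m y, π^[m] y ≠ y → lt (π^[m] y) y := fun m => by
    induction m with
    | zero => simp
    | succ m ih =>
      intro y c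
      have d : π y ≠ y := fun d => c (Function.iterate_fixed d _)
      by_cases e : π^[m] (π y) = π y
      · exact e.symm ▸ (h1 y d).1
      · exact tr _ _ _ (ih _ e) (h1 y d).1
  refine ⟨.ofSetoid (Setoid.ker ρ), fun A hA => ?_, ?_⟩
  · obtain ⟨a, -, rfl⟩ := mem_image.1 hA
    refine ⟨ρ a, mem_filter.2 ⟨mem_univ _, (Function.iterate_fixed (f1 a) n).symm⟩, π, f1 a,
      fun y hy => ⟨mem_filter.2 ⟨mem_univ _, (mem_filter.1 hy).2.trans (f2 y).symm⟩, n,
        (mem_filter.1 hy).2.symm⟩, fun x _ => le_trans (card_le_card fun y hy => ?_) (h2 x),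
      fun y _ m => ds m y⟩
    obtain ⟨p, q, r⟩ := mem_filter.1 hy
    exact mem_filter.2 ⟨mem_univ _, fun c =>
      q ((Function.iterate_fixed c n).symm.trans (mem_filter.1 p).2.symm), r⟩
  · refine le_trans (card_le_card fun A hA => ?_) (card_image_le (f := fun r => univ.filter fun b => r = ρ b))
    obtain ⟨a, -, rfl⟩ := mem_image.1 hA
    exact mem_image.2 ⟨ρ a, mem_filter.2 ⟨mem_univ _, f1 a⟩, by ext; simp [Setoid.ker_def]⟩

lemma wd_mem (k : ℕ) (lt : Fin n → Fin n → Prop) : ∃ P : Finpartition (univ : Finset (Fin n)),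
    (∀ A ∈ P.parts, Chain k lt A) ∧ #P.parts = wd k lt := by
  obtain ⟨P, h, -⟩ := wd_le (k := k) (lt := fun _ _ : Fin n => False) (by simp) id (by simp) (by simp)
  refine Nat.sInf_mem (s := {c | ∃ P : Finpartition (univ : Finset (Fin n)),
    (∀ A ∈ P.parts, Chain k lt A) ∧ #P.parts = c}) ⟨_, P, fun A hA => ?_, rfl⟩
  obtain ⟨r, a, π, b, c, d, e⟩ := h A hA
  exact ⟨r, a, π, b, c, d, fun y hy m l => (e y hy m l).elim⟩

lemma wd_mono (h : ∀ x y, lt x y → lt' x y) : wd k lt' ≤ wd k lt := by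
  obtain ⟨P, a, b⟩ := wd_mem k lt
  refine Nat.sInf_le ⟨P, fun A hA => ?_, b⟩
  obtain ⟨r, a, π, b, c, d, e⟩ := a A hA
  exact ⟨r, a, π, b, c, d, fun y hy m l => h _ _ (e y hy m l)⟩

lemma wd_le_n : wd k lt ≤ n := by
  obtain ⟨P, -, b⟩ := wd_mem k lt
  simpa [b] using P.card_parts_le_card

lemma le_wd (p q : Fin n → Prop) [DecidablePred p] [DecidablePred q] (h : ∀ x y, lt x y → p y → q x) :
    #{y | p y} ≤ wd k lt + k * #{x | q x} := by
  obtain ⟨P, a, b⟩ := wd_mem k lt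
  have s : ∀ (p : Fin n → Prop) [DecidablePred p], #{y | p y} = ∑ A ∈ P.parts, #{y ∈ A | p y} := fun p _ => by
    conv_lhs => rw [← P.biUnion_parts, filter_biUnion]
    exact card_biUnion fun A hA B hB c =>
      (P.supIndep.pairwiseDisjoint hA hB c).mono (filter_subset _ _) (filter_subset _ _)
  rw [s p, s q, ← b, card_eq_sum_ones, mul_sum, ← sum_add_distrib]
  refine sum_le_sum fun A hA => ?_
  obtain ⟨r, -, π, -, c, d, e⟩ := a A hA
  have := card_le_mul_card_image_of_maps_to (f := π) (s := ({y ∈ A | p y}).erase r) (t := {x ∈ A | q x})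
    (fun y hy => by
      obtain ⟨u, v⟩ := mem_erase.1 hy
      obtain ⟨v, w⟩ := mem_filter.1 v
      obtain ⟨x, m, z⟩ := c y v
      exact mem_filter.2 ⟨x, h _ _ (e y v 1 fun g => u ((Function.iterate_fixed g m).symm.trans z)) w⟩) k
    fun x hx => le_trans (card_le_card fun y hy => by
      simp only [mem_filter, mem_erase] at hy ⊢; tauto) (d x (mem_filter.1 hx).1)
  have := pred_card_le_card_erase (s := {y ∈ A | p y}) (a := r)
  omega

lemma forest {K : Type*} [DecidableEq K] (tr : ∀ x y z, lt x y → lt y z → lt x z) (κ μ : Fin n → K)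
    (h : ∀ x y, μ x = κ y → lt x y ∧ x < y) (T : Finset K) (hT : ∀ y, κ y ∈ T) :
    wd k lt ≤ ∑ c ∈ T, (#{y | κ y = c} - k * #{x | μ x = c}) := by
  classical
  rcases n with _ | n
  · exact wd_le_n.trans zero_le
  have : ∀ c, ∃ Y ⊆ ({y | κ y = c} : Finset _), ∃ f : Fin (n + 1) → Fin (n + 1) × ℕ,
      #(univ.filter (κ · = c) \ Y) ≤ #{y | κ y = c} - k * #{x | μ x = c} ∧ Set.InjOn f Y ∧
      ∀ y ∈ Y, μ (f y).1 = c ∧ (f y).2 < k := fun c => by
    obtain ⟨Y, a, b⟩ := exists_subset_card_eq (s := ({y | κ y = c} : Finset _))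
      (min_le_left _ (k * #{x | μ x = c}))
    obtain ⟨f, u, v⟩ := Y.finite_toSet.exists_injOn_of_encard_le
      (t := ((univ.filter (μ · = c) ×ˢ range k : Finset (Fin (n + 1) × ℕ)) : Set (Fin (n + 1) × ℕ))) (by
        rw [Set.encard_coe_eq_coe_finsetCard, Set.encard_coe_eq_coe_finsetCard, card_product, card_range, b,
          mul_comm]
        exact_mod_cast min_le_right _ _)
    exact ⟨Y, a, f, by rw [card_sdiff_of_subset a]; omega, v, fun y hy => by simpa using u hy⟩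
  choose Y hY f f1 f2 f3 using this
  let π : Fin (n + 1) → Fin (n + 1) := fun y => if y ∈ Y (κ y) then (f (κ y) y).1 else y
  have e : ∀ y, π y ≠ y → y ∈ Y (κ y) ∧ π y = (f (κ y) y).1 := fun y c => by
    by_cases d : y ∈ Y (κ y)
    exacts [⟨d, if_pos d⟩, (c (if_neg d)).elim]
  obtain ⟨P, a, b⟩ := wd_le (k := k) tr π (fun y c => h _ _ ((e y c).2 ▸ (f3 _ _ (e y c).1).1)) fun x => by
    rw [← card_range k]
    refine card_le_card_of_injOn (fun y => (f (κ y) y).2) (fun y hy => ?_) fun y hy z hz g => ?_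
    · simpa using (f3 _ _ (e y (mem_filter.1 hy).2.1).1).2
    · obtain ⟨-, y1, y2⟩ := mem_filter.1 hy
      obtain ⟨-, z1, z2⟩ := mem_filter.1 hz
      obtain ⟨y3, y4⟩ := e y y1
      obtain ⟨z3, z4⟩ := e z z1
      have w : κ y = κ z := by rw [← (f3 _ _ y3).1, ← (f3 _ _ z3).1, ← y4, ← z4, y2, z2]
      simp only [w] at g y3 y4
      exact f2 _ y3 z3 (Prod.ext (by rw [← y4, ← z4, y2, z2]) g)
  refine (Nat.sInf_le (by exact ⟨P, a, rfl⟩)).trans (b.trans ?_)
  rw [card_eq_sum_card_fiberwise (f := κ) (t := T) fun y _ => hT y]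
  refine sum_le_sum fun c _ => le_trans (card_le_card fun y hy => ?_) (f1 c)
  simp only [mem_filter, mem_univ, true_and, mem_sdiff] at hy ⊢
  obtain ⟨u, rfl⟩ := hy
  refine ⟨rfl, fun d => (h _ _ (f3 _ _ d).1).2.ne ?_⟩
  exact (if_pos d).symm.trans u

end Pool.Agent.H.MP_6cdded_pr
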