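import Pool.Agent.H.MP_6cdded_pr.A

/-! The expected k-width of random intervals. -/

open Finset Filter Topology MeasureTheory ProbabilityTheory

namespace Pool.Agent.H.MP_6cdded_pr

noncomputable def ν : Measure (ℝ × ℝ) :=
  (volume.restrict (Set.Ioo 0 1)).prod (volume.restrict (Set.Ioo 0 1))

lemma ν_min {x : ℝ} (h0 : 0 ≤ x) (h1 : x ≤ 1) : ν.real {w | x ≤ min w.1 w.2} = (1 - x) ^ 2 := by
  have : volume.restrict (Set.Ioo (0 : ℝ) 1) (Set.Ici x) = .ofReal (1 - x) := by
    rw [Measure.restrict_apply measurableSet_Ici]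
    exact le_antisymm ((measure_mono fun y h => by exact ⟨h.1, h.2.2⟩).trans_eq Real.volume_Ico)
      (Real.volume_Ioo.symm.trans_le (measure_mono fun y h => ⟨h.1.le, h0.trans_lt h.1, h.2⟩))
  rw [show {w : ℝ × ℝ | x ≤ min w.1 w.2} = Set.Ici x ×ˢ Set.Ici x from Set.ext fun w => le_min_iff (a := w.1), Measure.real, ν,
    Measure.prod_prod, this, ENNReal.toReal_mul, ENNReal.toReal_ofReal (by linarith), sq]

lemma ν_max {x : ℝ} (h0 : 0 ≤ x) (h1 : x ≤ 1) : ν.real {w | max w.1 w.2 < x} = x ^ 2 := by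
  have : volume.restrict (Set.Ioo (0 : ℝ) 1) (Set.Iio x) = .ofReal (x - 0) := by
    rw [Measure.restrict_apply measurableSet_Iio, ← Real.volume_Ioo]
    congr 1
    exact Set.ext fun y => ⟨fun h => ⟨h.2.1, h.1⟩, fun h => ⟨h.2, h.1, h.2.trans_le h1⟩⟩
  rw [show {w : ℝ × ℝ | max w.1 w.2 < x} = Set.Iio x ×ˢ Set.Iio x by ext; simp, Measure.real, ν,
    Measure.prod_prod, this, ENNReal.toReal_mul, sub_zero, ENNReal.toReal_ofReal h0, sq]

lemma ν_prob : IsProbabilityMeasure ν := ⟨by rw [← Set.univ_prod_univ, ν, Measure.prod_prod]; simp⟩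

lemma tri (c : ℕ) : ∀ m : ℕ, ∑ j ∈ range m, max 0 ((c : ℝ) - j) ≤ c * (c + 1) / 2 := by
  induction c with
  | zero => intro m; simp
  | succ c ih =>
    rintro (_ | m)
    · simp; positivity
    · rw [sum_range_succ']
      push_cast
      simp only [add_sub_add_right_eq_sub, sub_zero]
      rw [max_eq_right (by positivity)]
      linarith [ih m]

lemma cells (k q : ℕ) (hq : 0 < q) : ∑ j ∈ range ((k + 1) * q), max 0
    (ν.real {w | ⌊((k + 1) * q : ℕ) * min w.1 w.2⌋ = j} -
      k * ν.real {w | ⌊((k + 1) * q : ℕ) * max w.1 w.2⌋ + 1 = j}) ≤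
      (q + 1) * (q + 2) / ((k + 1) * q ^ 2) := by
  have := ν_prob
  have q0 : (0 : ℝ) < q := Nat.cast_pos.2 hq
  set m := (k + 1) * q with hm
  have e : (m : ℝ) = (k + 1) * q := by rw [hm]; push_cast; rfl
  have m0 : (0 : ℝ) < m := by rw [e]; positivity
  calc _ ≤ ∑ j ∈ range m, 2 * (k + 1) / (m : ℝ) ^ 2 * max 0 (((q + 1 : ℕ) : ℝ) - j) := by
        refine sum_le_sum fun j hj => ?_
        have j0 : (0 : ℝ) ≤ j := j.cast_nonneg
        have j1 : (j : ℝ) + 1 ≤ m := by exact_mod_cast mem_range.1 hj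
        have a : ν.real {w | ⌊(m : ℝ) * min w.1 w.2⌋ = j} = (2 * m - 2 * j - 1) / m ^ 2 := by
          rw [show {w : ℝ × ℝ | ⌊(m : ℝ) * min w.1 w.2⌋ = j} =
            {w | (j : ℝ) / m ≤ min w.1 w.2} \ {w | ((j : ℝ) + 1) / m ≤ min w.1 w.2} by
              ext w
              simp only [Set.mem_ofPred_eq, Set.mem_sdiff, Int.floor_eq_iff, div_le_iff₀' m0, not_le,
                Int.cast_natCast],
            measureReal_sdiff (fun w h => by exact le_trans (div_le_div_of_nonneg_right (by linarith) m0.le) h)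
              (measurableSet_le measurable_const (by fun_prop)),
            ν_min (by positivity) ((div_le_one m0).2 (by linarith)), ν_min (by positivity)
            ((div_le_one m0).2 j1)]
          field_simp; ring
        have b : (2 * j - 1) / m ^ 2 ≤ ν.real {w | ⌊(m : ℝ) * max w.1 w.2⌋ + 1 = j} := by
          rcases j with _ | j
          · exact le_trans (by simp [div_nonpos_iff]) measureReal_nonneg
          push_cast at j1 ⊢
          rw [show {w : ℝ × ℝ | ⌊(m : ℝ) * max w.1 w.2⌋ + 1 = j + 1} =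
            {w | max w.1 w.2 < ((j : ℝ) + 1) / m} \ {w | max w.1 w.2 < (j : ℝ) / m} by
              ext w
              simp only [Set.mem_ofPred_eq, Set.mem_sdiff, add_left_inj, Int.floor_eq_iff, lt_div_iff₀' m0,
                not_lt, Int.cast_natCast, and_comm],
            measureReal_sdiff (fun w h => by
              exact lt_of_lt_of_le (b := (j : ℝ) / m) h (div_le_div_of_nonneg_right (by linarith) m0.le))
              (measurableSet_lt (by fun_prop) measurable_const),
            ν_max (by positivity) ((div_le_one m0).2 (by linarith)), ν_max (by positivity)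
            ((div_le_one m0).2 (by linarith))]
          exact le_of_eq (by field_simp; ring)
        refine max_le (by positivity) (le_trans ?_ (mul_le_mul_of_nonneg_left (le_max_right _ _)
          (by positivity)))
        refine (sub_le_sub a.le (mul_le_mul_of_nonneg_left b k.cast_nonneg)).trans ?_
        rw [mul_div_assoc', ← sub_div, div_mul_eq_mul_div]
        gcongr
        rw [e]; push_cast
        nlinarith [k.cast_nonneg (α := ℝ)]
    _ ≤ 2 * (k + 1) / (m : ℝ) ^ 2 * ((q + 1 : ℕ) * ((q + 1 : ℕ) + 1) / 2) := by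
        rw [← mul_sum]; gcongr; exact tri _ _
    _ = _ := by rw [e]; push_cast; field_simp; ring

variable {Ω : Type*} [MeasurableSpace Ω] {P : Measure Ω} [IsProbabilityMeasure P] {W : ℕ → Ω → ℝ × ℝ}

lemma cnt (hm : ∀ i, Measurable (W i)) (hi : iIndepFun W P) (hl : ∀ i, P.map (W i) = ν) {n : ℕ}
    (T : Finset (Fin n)) {C : Set (ℝ × ℝ)} [DecidablePred (· ∈ C)] (hC : MeasurableSet C) :
    Integrable (fun ω => (#{i ∈ T | W i.1 ω ∈ C} : ℝ)) P ∧ ∫ ω, (#{i ∈ T | W i.1 ω ∈ C} : ℝ) ∂P = #T * ν.real C ∧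
      ∀ r : ℝ, 0 < r → #T ≤ r ^ 2 → ∫ ω, |(#{i ∈ T | W i.1 ω ∈ C} : ℝ) - #T * ν.real C| ∂P ≤ r := by
  let X : Fin n → Ω → ℝ := fun i => C.indicator 1 ∘ W i
  have mI : Measurable (C.indicator (1 : ℝ × ℝ → ℝ)) := measurable_one.indicator hC
  have bd : ∀ i ω, X i ω ∈ Set.Icc (0 : ℝ) 1 := fun i ω => by
    simp only [X, Function.comp, Set.indicator]; split_ifs <;> simp
  have l2 : ∀ i, MemLp (X i) 2 P := fun i =>
    memLp_of_bounded (.of_forall (bd i)) (mI.comp (hm i)).aestronglyMeasurable 2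
  have e : (fun ω => (#{i ∈ T | W i.1 ω ∈ C} : ℝ)) = ∑ i ∈ T, X i := funext fun ω => by
    simp [X, Set.indicator]
  have L2 : MemLp (∑ i ∈ T, X i) 2 P := memLp_finsetSum' _ fun i _ => l2 i
  have ex : ∫ ω, (∑ i ∈ T, X i) ω ∂P = #T * ν.real C := by
    simp only [Finset.sum_apply]
    rw [integral_finsetSum _ fun i _ => (l2 i).integrable one_le_two, ← nsmul_eq_mul, ← sum_const]
    refine sum_congr rfl fun i _ => ?_
    rw [← integral_indicator_one hC, ← hl i, integral_map (hm i).aemeasurable mI.aestronglyMeasurable]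
    rfl
  refine ⟨e ▸ L2.integrable one_le_two, by rw [e, ex], fun r r0 hr => ?_⟩
  have v : Var[∑ i ∈ T, X i; P] ≤ r ^ 2 := by
    rw [IndepFun.variance_sum (fun i _ => l2 i) fun i _ j _ c =>
      (hi.indepFun fun d => c (Fin.ext d)).comp mI mI]
    refine le_trans (sum_le_card_nsmul _ _ 1 fun i _ => ?_) (by simpa using hr)
    refine (variance_le_sq_of_bounded (.of_forall (bd i)) (l2 i).1.aemeasurable).trans (by norm_num)
  rw [variance_eq_integral L2.1.aemeasurable, ex] at v
  have i2 : Integrable (fun ω => ((∑ i ∈ T, X i) ω - #T * ν.real C) ^ 2) P :=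
    (L2.sub (memLp_const _)).integrable_sq
  calc _ ≤ ∫ ω, (((∑ i ∈ T, X i) ω - #T * ν.real C) ^ 2 / r + r) / 2 ∂P := by
        refine integral_mono_of_nonneg (.of_forall fun _ => abs_nonneg _)
          (((i2.div_const r).add (integrable_const r)).div_const 2) (.of_forall fun ω => ?_)
        simp only [congrFun e ω]
        generalize (∑ i ∈ T, X i) ω - #T * ν.real C = x
        rw [← sq_abs x, le_div_iff₀ two_pos, ← sub_le_iff_le_add, le_div_iff₀ r0]
        nlinarith [sq_nonneg (|x| - r)]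
    _ ≤ r := by
        rw [integral_div, integral_add (i2.div_const r) (integrable_const r), integral_div]
        have := (div_le_iff₀ r0).2 (v.trans_eq (sq r))
        rw [integral_const, probReal_univ, one_smul]
        linarith

lemma wd_int {n k : ℕ} (R : Ω → Fin n → Fin n → Prop) (hR : ∀ i j, Measurable fun ω => R ω i j) :
    Integrable (fun ω => (wd k (R ω) : ℝ)) P :=
  .of_bound ((measurable_of_finite fun r => (wd k r : ℝ)).comp (measurable_pi_lambda _ fun i =>
    measurable_pi_lambda _ (hR i))).aestronglyMeasurable n (.of_forall fun ω => by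
      rw [Real.norm_natCast]; exact_mod_cast wd_le_n)

variable (hm : ∀ i, Measurable (W i)) (hi : iIndepFun W P) (hl : ∀ i, P.map (W i) = ν)

def S (W : ℕ → Ω → ℝ × ℝ) (n : ℕ) (ω : Ω) (i j : Fin n) : Prop :=
  max (W i ω).1 (W i ω).2 ≤ min (W j ω).1 (W j ω).2

include hm in
lemma S_meas {n : ℕ} (i j : Fin n) : Measurable fun ω => S W n ω i j :=
  measurableSet_setOfPred.1 (measurableSet_le (by fun_prop) (by fun_prop))

include hm hi hl

lemma lower (n k : ℕ) : (n : ℝ) * (1 / (k + 1)) ≤ ∫ ω, (wd k (S W n ω) : ℝ) ∂P := by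
  classical
  have := ν_prob
  have k0 : (0 : ℝ) < k + 1 := by positivity
  set t : ℝ := 1 / (k + 1) with ht
  have t0 : 0 ≤ t := by positivity
  have t1 : t ≤ 1 := (div_le_one k0).2 (by simp)
  have mc : MeasurableSet {w : ℝ × ℝ | t ≤ min w.1 w.2} := measurableSet_le measurable_const (by fun_prop)
  obtain ⟨a, b, -⟩ := cnt hm hi hl (univ : Finset (Fin n)) mc.compl
  obtain ⟨c, d, -⟩ := cnt hm hi hl (univ : Finset (Fin n)) (C := {w | max w.1 w.2 < t})
    (measurableSet_lt (by fun_prop) measurable_const)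
  have e := integral_mono a ((wd_int (k := k) (S W n) (S_meas hm)).add (c.const_mul k)) fun ω => by
    have := le_wd (k := k) (lt := S W n ω) (fun i => W i.1 ω ∈ {w : ℝ × ℝ | t ≤ min w.1 w.2}ᶜ)
      (fun i => W i.1 ω ∈ {w : ℝ × ℝ | max w.1 w.2 < t}) fun x y h p => lt_of_le_of_lt h (not_le.1 p)
    have := (Nat.cast_le (α := ℝ)).2 this
    push_cast at this
    exact this
  rw [integral_add' (wd_int _ (S_meas hm)) (c.const_mul k), integral_const_mul, b, d,
    probReal_compl_eq_one_sub mc, ν_min t0 t1, ν_max t0 t1, card_univ, Fintype.card_fin] at e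
  have : (n : ℝ) * (1 - (1 - t) ^ 2) - k * (n * t ^ 2) = n * t := by rw [ht]; field_simp; ring
  linarith

lemma upper (n k q r : ℕ) (hq : 0 < q) (hr : 0 < r) :
    ∫ ω, (wd k (fun i j : Fin n => i < j ∧ S W n ω i j) : ℝ) ∂P ≤ (k + 1) * q * r ^ 2 +
      n * ((q + 1) * (q + 2) / ((k + 1) * q ^ 2) + (k + 1) * q * (k + 1) / r) := by
  classical
  set m := (k + 1) * q with hm'
  have m0 : (0 : ℝ) < m := by positivity
  have r0 : (0 : ℝ) < r := by positivity
  have L0 : 0 < r ^ 2 := by positivity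
  let C : ℕ → Set (ℝ × ℝ) := fun j => {w | ⌊(m : ℝ) * min w.1 w.2⌋ = j}
  let D : ℕ → Set (ℝ × ℝ) := fun j => {w | ⌊(m : ℝ) * max w.1 w.2⌋ + 1 = j}
  have mC : ∀ j, MeasurableSet (C j) := fun j => measurableSet_eq_fun (by fun_prop) measurable_const
  have mD : ∀ j, MeasurableSet (D j) := fun j => measurableSet_eq_fun (by fun_prop) measurable_const
  let B : ℕ → Finset (Fin n) := fun s => {i | i.1 / r ^ 2 = s}
  have b1 : ∀ s, (#(B s) : ℝ) ≤ r ^ 2 := fun s => by
    have : #(B s) ≤ #(range (r ^ 2)) := card_le_card_of_injOn (fun i => i.1 % r ^ 2)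
      (fun i _ => by simpa using Nat.mod_lt _ L0) fun i hi j hj e => Fin.ext (by
        rw [← Nat.div_add_mod i (r ^ 2), ← Nat.div_add_mod j (r ^ 2), (mem_filter.1 hi).2,
          (mem_filter.1 hj).2, show i.1 % r ^ 2 = j.1 % r ^ 2 from e])
    rw [card_range] at this; exact_mod_cast this
  have b2 : ∀ s < n / r ^ 2, (r : ℝ) ^ 2 ≤ #(B s) := fun s l => by
    have := (Nat.le_div_iff_mul_le L0).1 (Nat.succ_le_of_lt l)
    have : #(univ : Finset (Fin (r ^ 2))) ≤ #(B s) := card_le_card_of_injOn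
      (fun t => ⟨t + r ^ 2 * s, by nlinarith [t.2]⟩) (fun t _ => by
        simp [B, Nat.add_mul_div_left _ _ L0, Nat.div_eq_of_lt t.2]) fun i _ j _ e => Fin.ext (by simpa using e)
    rw [card_univ, Fintype.card_fin] at this; exact_mod_cast this
  let N : ℕ → Set (ℝ × ℝ) → Ω → ℝ := fun s C ω => #{i ∈ B s | W i.1 ω ∈ C}
  let γ : ℕ → ℝ := fun j => max 0 (ν.real (C j) - k * ν.real (D j))
  let U : ℕ → ℕ → Ω → ℝ := fun s j ω => r ^ 2 * γ j + (|N (s + 1) (C j) ω - #(B (s + 1)) * ν.real (C j)| +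
    k * |N s (D j) ω - #(B s) * ν.real (D j)|)
  have dv : ∀ s C, MeasurableSet C → Integrable (fun ω => |N s C ω - #(B s) * ν.real C|) P ∧
      ∫ ω, |N s C ω - #(B s) * ν.real C| ∂P ≤ r := fun s C h =>
    ⟨((cnt hm hi hl (B s) h).1.sub (integrable_const _)).abs, (cnt hm hi hl (B s) h).2.2 r r0 (b1 s)⟩
  have iU : ∀ s j, Integrable (U s j) P := fun s j =>
    (integrable_const _).add ((dv _ _ (mC j)).1.add ((dv _ _ (mD j)).1.const_mul k))
  have eU : ∀ s j, ∫ ω, U s j ω ∂P ≤ r ^ 2 * γ j + (k + 1) * r := fun s j => by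
    rw [integral_add (integrable_const _) (by exact (dv _ _ (mC j)).1.add ((dv _ _ (mD j)).1.const_mul k)),
      integral_add (dv _ _ (mC j)).1 ((dv _ _ (mD j)).1.const_mul k), integral_const,
      probReal_univ, one_smul, integral_const_mul]
    nlinarith [(dv (s + 1) _ (mC j)).2, (dv s _ (mD j)).2, k.cast_nonneg (α := ℝ)]
  have ae : ∀ᵐ ω ∂P, ∀ i, W i ω ∈ Set.Ioo (0 : ℝ) 1 ×ˢ Set.Ioo (0 : ℝ) 1 := ae_all_iff.2 fun i =>
    ae_of_ae_map (hm i).aemeasurable (by
      rw [hl, ν, Measure.prod_restrict]; exact ae_restrict_mem (measurableSet_Ioo.prod measurableSet_Ioo))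
  calc _ ≤ ∫ ω, m * r ^ 2 + ∑ s ∈ range (n / r ^ 2), ∑ j ∈ range m, U s j ω ∂P := by
        refine integral_mono_of_nonneg (.of_forall fun _ => Nat.cast_nonneg _) ((integrable_const _).add
          (integrable_finsetSum _ fun s _ => integrable_finsetSum _ fun j _ => iU s j)) ?_
        filter_upwards [ae] with ω h
        have f := forest (k := k) (lt := fun i j : Fin n => i < j ∧ S W n ω i j)
          (fun x y z a b => ⟨a.1.trans b.1, a.2.trans (min_le_max.trans b.2)⟩)
          (fun i => (i.1 / r ^ 2, ⌊(m : ℝ) * min (W i ω).1 (W i ω).2⌋))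
          (fun i => (i.1 / r ^ 2 + 1, ⌊(m : ℝ) * max (W i ω).1 (W i ω).2⌋ + 1)) (fun x y e => by
            obtain ⟨e1, e2⟩ := Prod.ext_iff.1 e
            have l : x < y := Nat.lt_of_div_lt_div (c := r ^ 2) (by simp only at e1; omega)
            refine ⟨⟨l, le_of_mul_le_mul_left ((Int.lt_floor_add_one _).le.trans
              (le_trans (le_of_eq ?_) (Int.floor_le _))) m0⟩, l⟩
            exact_mod_cast e2)
          (range (n / r ^ 2 + 1) ×ˢ (range m).map Nat.castEmbedding) fun y => by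
            obtain ⟨⟨a, b⟩, c, d⟩ := h y
            have u : 0 ≤ ⌊(m : ℝ) * min (W y ω).1 (W y ω).2⌋ := Int.floor_nonneg.2 (by positivity)
            refine mem_product.2 ⟨mem_range.2 (Nat.lt_succ_of_le (Nat.div_le_div_right y.2.le)),
              mem_map.2 ⟨_, mem_range.2 ((Int.toNat_lt u).2 (Int.floor_lt.2 ?_)), Int.toNat_of_nonneg u⟩⟩
            simpa using mul_lt_of_lt_one_right m0 (min_lt_of_left_lt b)
        refine (Nat.cast_le.2 f).trans ?_
        rw [sum_product, sum_range_succ', add_comm]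
        push_cast
        simp only [sum_map, Nat.castEmbedding_apply, Prod.mk.injEq]
        refine add_le_add ((sum_le_card_nsmul _ _ ((r : ℝ) ^ 2) fun j _ => le_trans (Nat.cast_le.2
          ((Nat.sub_le _ _).trans (card_le_card fun i hi => ?_))) (b1 0)).trans_eq
          ((nsmul_eq_mul _ _).trans (by rw [card_range])))
          (sum_le_sum fun s hs => sum_le_sum fun j _ => ?_)
        · exact mem_filter.2 ⟨mem_univ _, (mem_filter.1 hi).2.1⟩
        · have e1 : (#{y : Fin n | y.1 / r ^ 2 = s + 1 ∧ ⌊(m : ℝ) * min (W y ω).1 (W y ω).2⌋ = j} : ℝ) =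
              N (s + 1) (C j) ω := by simp only [N, B, filter_filter, C, Set.mem_ofPred_eq]
          have e2 : (#{y : Fin n | y.1 / r ^ 2 = s ∧ ⌊(m : ℝ) * max (W y ω).1 (W y ω).2⌋ + 1 = j} : ℝ) =
              N s (D j) ω := by simp only [N, B, filter_filter, D, Set.mem_ofPred_eq]
          have g0 : 0 ≤ γ j := le_max_left _ _
          have g1 : ν.real (C j) - k * ν.real (D j) ≤ γ j := le_max_right _ _
          have k0 := k.cast_nonneg (α := ℝ)
          rw [show ∀ a b : ℕ, ((a - b : ℕ) : ℝ) = max ((a : ℝ) - b) 0 from fun a b => by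
            rcases le_total a b with l | l
            · rw [Nat.sub_eq_zero_of_le l, max_eq_right (sub_nonpos.2 (Nat.cast_le.2 l)), Nat.cast_zero]
            · rw [Nat.cast_sub l, max_eq_left (sub_nonneg.2 (Nat.cast_le.2 l))]]
          push_cast
          rw [e1, e2]
          refine max_le ?_ (by positivity)
          have p1 := mul_le_mul_of_nonneg_right (b1 (s + 1)) (measureReal_nonneg (μ := ν) (s := C j))
          have p2 := mul_le_mul_of_nonneg_left (mul_le_mul_of_nonneg_right (b2 s (mem_range.1 hs))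
            (measureReal_nonneg (μ := ν) (s := D j))) k0
          have p3 := le_abs_self (N (s + 1) (C j) ω - #(B (s + 1)) * ν.real (C j))
          have p4 := mul_le_mul_of_nonneg_left (neg_abs_le (N s (D j) ω - #(B s) * ν.real (D j))) k0
          have p5 := mul_le_mul_of_nonneg_left g1 (sq_nonneg (r : ℝ))
          simp only [U]
          linarith
    _ ≤ m * r ^ 2 + (n / r ^ 2 : ℕ) * (r ^ 2 * ((q + 1) * (q + 2) / ((k + 1) * q ^ 2)) + m * ((k + 1) * r)) := by
        rw [integral_add (integrable_const _) (integrable_finsetSum _ fun s _ => integrable_finsetSum _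
          fun j _ => iU s j), integral_const, probReal_univ, one_smul, integral_finsetSum _ fun s _ =>
          integrable_finsetSum _ fun j _ => iU s j]
        refine add_le_add le_rfl ((sum_le_card_nsmul _ _ _ fun s _ => ?_).trans_eq
          ((nsmul_eq_mul _ _).trans (by rw [card_range])))
        rw [integral_finsetSum _ fun j _ => iU s j]
        refine (sum_le_sum fun j _ => eU s j).trans ?_
        rw [sum_add_distrib, ← mul_sum, sum_const, card_range, nsmul_eq_mul]
        gcongr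
        exact cells k q hq
    _ ≤ m * r ^ 2 + (n / r ^ 2) * (r ^ 2 * ((q + 1) * (q + 2) / ((k + 1) * q ^ 2)) + m * ((k + 1) * r)) := by
        gcongr
        exact_mod_cast Nat.cast_div_le (α := ℝ)
    _ = _ := by rw [hm']; push_cast; field_simp

theorem main (k : ℕ) (R : ∀ n, Ω → Fin n → Fin n → Prop) (hR : ∀ n i j, Measurable fun ω => R n ω i j)
    (h1 : ∀ n ω i j, R n ω i j → S W n ω i j) (h2 : ∀ n ω i j, i < j ∧ S W n ω i j → R n ω i j) :
    Tendsto (fun n => (∫ ω, (wd k (R n ω) : ℝ) ∂P) / n) atTop (𝓝 (1 / ((k : ℝ) + 1))) := by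
  refine tendsto_order.2 ⟨fun a ha => eventually_atTop.2 ⟨1, fun n l => ha.trans_le ?_⟩, fun a ha => ?_⟩
  · rw [le_div_iff₀' (by exact_mod_cast l)]
    exact (lower hm hi hl n k).trans (integral_mono (wd_int _ (S_meas hm)) (wd_int _ (hR n)) fun ω =>
      Nat.cast_le.2 (wd_mono (h1 n ω)))
  have t1 : Tendsto (fun q : ℕ => ((q : ℝ) + 1) * (q + 2) / ((k + 1) * q ^ 2)) atTop (𝓝 (1 / ((k : ℝ) + 1))) := by
    have := (((tendsto_const_div_atTop_nhds_zero_nat (1 : ℝ)).const_add 1).mul
      ((tendsto_const_div_atTop_nhds_zero_nat (2 : ℝ)).const_add 1)).div_const ((k : ℝ) + 1)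
    rw [add_zero, one_mul] at this
    refine this.congr' (eventually_atTop.2 ⟨1, fun q l => ?_⟩)
    have : (0 : ℝ) < q := by exact_mod_cast l
    field_simp
  obtain ⟨q, q1, q2⟩ := ((t1.eventually (gt_mem_nhds ha)).and (eventually_gt_atTop 0)).exists
  have t2 := (tendsto_const_div_atTop_nhds_zero_nat (((k : ℝ) + 1) * q * (k + 1))).const_add
    (((q : ℝ) + 1) * (q + 2) / ((k + 1) * q ^ 2))
  rw [add_zero] at t2
  obtain ⟨r, r1, r2⟩ := ((t2.eventually (gt_mem_nhds q1)).and (eventually_gt_atTop 0)).exists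
  have t3 := (tendsto_const_div_atTop_nhds_zero_nat (((k : ℝ) + 1) * q * r ^ 2)).add_const
    (((q : ℝ) + 1) * (q + 2) / ((k + 1) * q ^ 2) + (k + 1) * q * (k + 1) / r)
  rw [zero_add] at t3
  filter_upwards [t3.eventually (gt_mem_nhds r1), eventually_gt_atTop 0] with n u v
  have n0 : (0 : ℝ) < n := by exact_mod_cast v
  refine lt_of_le_of_lt ?_ u
  rw [div_le_iff₀' n0, mul_add, mul_div_cancel₀ _ n0.ne']
  exact (integral_mono (wd_int _ (hR n)) (wd_int _ fun i j => measurable_const.and (S_meas hm i j))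
    fun ω => Nat.cast_le.2 (wd_mono (h2 n ω))).trans (upper hm hi hl n k q r q2 r2)

end Pool.Agent.H.MP_6cdded_pr
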